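import Pool.Agent.W509.DU.Pair

set_option autoImplicit false

namespace Pool.Agent.W509.DU.FC

open Pool.Agent.W326.DU Pool.Agent.W509.DU

section red
variable {G : Type} [Group G] (k : ℕ)

/-- reduction modulo `k` -/
noncomputable def rho : ZG G →+* MonoidAlgebra (ZMod k) G :=
  MonoidAlgebra.mapRingHom G (Int.castRingHom (ZMod k))

theorem rho_of (g : G) : rho k (MonoidAlgebra.of ℤ G g) = MonoidAlgebra.of (ZMod k) G g := by
  simp [rho]

theorem rho_Lf (s : Fin 10 → G) (v : Fin 10) (x : ZG G) :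
    rho k (Lf ℤ s v x) = Lf (ZMod k) s v (rho k x) := by
  simp only [Lf, lm, AddMonoidHom.coe_mulLeft, map_mul, map_sub, rho_of, map_one]

theorem rho_Tl (t : G) (x : ZG G) :
    rho k (Tl t x) = lm (ZMod k) (MonoidAlgebra.of (ZMod k) G t) (rho k x) := by
  simp only [Tl, lm, AddMonoidHom.coe_mulLeft, map_mul, rho_of]

theorem rho_alt2 (C : Fin 26 → ZG G) (a b : Fin 10) :
    rho k (alt2 C a b) = alt2 (fun i => rho k (C i)) a b := by
  simp only [alt2, map_sum, map_zsmul]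

theorem rho_e2 (s : Fin 10 → G) (C : Fin 26 → ZG G) (j : Fin 16) :
    rho k (e2 (Lf ℤ s) C j) = e2 (Lf (ZMod k) s) (fun i => rho k (C i)) j := by
  simp only [e2, map_sub, map_add, rho_Lf, rho_alt2]

theorem rho_g2 (s : Fin 10 → G) (t : G) (C : Fin 26 → ZG G) (B : Fin 4 → ZG G) (l : Fin 4) :
    rho k (g2 (Lf ℤ s) (Tl t) C B l) = g2 (Lf (ZMod k) s)
      (lm (ZMod k) (MonoidAlgebra.of (ZMod k) G t)) (fun i => rho k (C i))
      (fun i => rho k (B i)) l := by
  simp only [g2, map_sub, rho_Lf, rho_alt2, rho_Tl]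

theorem rho_e1 (s : Fin 10 → G) (X : Fin 10 → ZG G) (i : Fin 26) :
    rho k (e1 (Lf ℤ s) X i) = e1 (Lf (ZMod k) s) (fun i => rho k (X i)) i := by
  simp only [e1, map_sub, rho_Lf]

theorem rho_g1 (s : Fin 10 → G) (t : G) (X : Fin 10 → ZG G) (Y : ZG G) (l : Fin 4) :
    rho k (g1 (Lf ℤ s) (Tl t) X Y l) = g1 (Lf (ZMod k) s)
      (lm (ZMod k) (MonoidAlgebra.of (ZMod k) G t)) (fun i => rho k (X i)) (rho k Y) l := by
  simp only [g1, map_sub, rho_Lf, rho_Tl]

theorem rho_surj : Function.Surjective (rho k : ZG G →+* MonoidAlgebra (ZMod k) G) := by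
  intro y
  induction y using MonoidAlgebra.induction_on with
  | of g => exact ⟨MonoidAlgebra.of ℤ G g, rho_of k g⟩
  | add a b ha hb =>
    obtain ⟨a', rfl⟩ := ha
    obtain ⟨b', rfl⟩ := hb
    exact ⟨a' + b', map_add _ _ _⟩
  | smul r a ha =>
    obtain ⟨a', rfl⟩ := ha
    obtain ⟨n, rfl⟩ := ZMod.intCast_surjective r
    refine ⟨n • a', ?_⟩
    rw [map_zsmul, Int.cast_smul_eq_zsmul]

theorem coeff_nsmul' (n : ℕ) (x : ZG G) (g : G) : (n • x).coeff g = n * x.coeff g := by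
  induction n with
  | zero => simp
  | succ n ih => rw [succ_nsmul, MonoidAlgebra.coeff_add, Finsupp.add_apply, ih]; push_cast; ring

theorem rho_ker (x : ZG G) (hx : rho k x = 0) : ∃ y : ZG G, x = k • y := by
  refine ⟨MonoidAlgebra.ofCoeff (x.coeff.mapRange (fun n => n / k) (by simp)), ?_⟩
  apply MonoidAlgebra.ext
  ext g
  rw [coeff_nsmul', MonoidAlgebra.coeff_ofCoeff, Finsupp.mapRange_apply]
  have h1 : (rho k x).coeff g = 0 := by rw [hx]; rfl
  rw [rho, MonoidAlgebra.coeff_mapRingHom, eq_intCast, ZMod.intCast_zmod_eq_zero_iff_dvd] at h1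
  exact (Int.mul_ediv_cancel' h1).symm

end red

theorem th (h2 : PropCOHB) (h3 : PropLFT) (h4 : PropDD) : PropFC := by
  intro G _ s t hG φ k hk hψ
  obtain ⟨ψ, hψ⟩ := hψ
  obtain ⟨C, B, rfl⟩ := exists_pr ψ
  obtain ⟨E, F, rfl⟩ := exists_pr φ
  rw [pair3, pr_smul] at hψ
  obtain ⟨k1, k2⟩ := pr_inj hψ
  obtain ⟨r1, r2, r3⟩ := h3 G s t hG (ZMod k)
  have hz : ∀ y : ZG G, rho k (k • y) = 0 := by
    intro y
    rw [map_nsmul, ← Nat.cast_smul_eq_nsmul (ZMod k), ZMod.natCast_self, zero_smul]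
  obtain ⟨x', y', hx, hy⟩ := h2 _ (Lf (ZMod k) s) (lm (ZMod k) (MonoidAlgebra.of (ZMod k) G t))
    r1 r2 r3 (fun i => rho k (C i)) (fun i => rho k (B i))
    (fun j => by rw [← rho_e2, k1, hz]) (fun l => by rw [← rho_g2, k2, hz])
  choose X hX using fun i => rho_surj k (x' i)
  obtain ⟨Y, rfl⟩ := rho_surj k y'
  have hX' : x' = fun i => rho k (X i) := funext fun i => (hX i).symm
  subst hX'
  have h5 : ∀ i, ∃ y, C i - e1 (Lf ℤ s) X i = k • y := fun i => rho_ker k _ (by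
    rw [map_sub, rho_e1, ← hx i, sub_self])
  have h6 : ∀ i, ∃ y, B i - g1 (Lf ℤ s) (Tl t) X Y i = k • y := fun i => rho_ker k _ (by
    rw [map_sub, rho_g1, ← hy i, sub_self])
  choose C' hC' using h5
  choose B' hB' using h6
  refine ⟨pr C' B', ?_⟩
  have hR : Reg adj (Rf ℤ s) := hG.reg ℤ
  have hdd : (d1 s t) ∘ₗ (d2 s t) = 0 := by
    apply LinearMap.ext
    intro p
    obtain ⟨a1, a2⟩ := (h4 (ZG G) (Rf ℤ s) (Tr t) hR.comm (by
      intro l x
      simp only [Rf, Tr, rm, AddMonoidHom.coe_mulRight, mul_assoc, mul_sub, sub_mul, mul_one,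
        ← map_mul, hG.conj])).2 p.1 p.2
    refine Prod.ext (funext fun b => ?_) ?_
    · exact a1 b
    · simp only [LinearMap.comp_apply, d1, d2, LinearMap.coe_mk, AddHom.coe_mk]
      rw [a2]
      simp
  have h7 : k • (pr C' B') = pr C B - (pr1 X Y) ∘ₗ (d1 s t) := by
    rw [pair2, pr_sub, pr_smul]
    congr 1
    · funext i; exact (hC' i).symm
    · funext i; exact (hB' i).symm
  have h8 : k • ((pr C' B') ∘ₗ (d2 s t)) = k • pr E F := by
    rw [← LinearMap.smul_comp, h7, LinearMap.sub_comp, LinearMap.comp_assoc, hdd,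
      LinearMap.comp_zero, sub_zero, pair3, pr_smul, k1, k2]
  apply LinearMap.ext
  intro p
  have h9 := LinearMap.congr_fun h8 p
  rw [LinearMap.smul_apply, LinearMap.smul_apply] at h9
  apply MonoidAlgebra.ext
  ext g
  have h10 := congrArg (fun z : ZG G => z.coeff g) h9
  simp only [coeff_nsmul'] at h10
  exact mul_left_cancel₀ (by exact_mod_cast hk.ne') h10

end Pool.Agent.W509.DU.FC
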