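import Pool.Agent.W509.DU.Pair

set_option autoImplicit false

namespace Pool.Agent.W509.DU.FD

open Pool.Agent.W326.DU Pool.Agent.W509.DU

theorem th (h1 : PropNF1) (h2 : PropNF2) (h3 : PropLFT) (h4 : PropTNU) : PropFD := by
  intro G _ s t hG
  obtain ⟨r1, r2, r3⟩ := h3 G s t hG ℤ
  refine ⟨fun j => pr 0 (om (Lf ℤ s) (MonoidAlgebra.of ℤ G t ^ j)), ?_, ?_⟩
  · intro j
    obtain ⟨c, b, hc, hb⟩ := h1 (ZG G) (Lf ℤ s) (Tl t) r1.comm r2 (MonoidAlgebra.of ℤ G t ^ j)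
    refine ⟨- pr c b, ?_⟩
    rw [LinearMap.neg_comp, pair3, pr_smul, pr_sub]
    have hc' : e2 (Lf ℤ s) c = 0 := funext hc
    have hb' : g2 (Lf ℤ s) (Tl t) c b = fun k => 2 • om (Lf ℤ s) (MonoidAlgebra.of ℤ G t ^ (j + 1)) k
        - om (Lf ℤ s) (MonoidAlgebra.of ℤ G t ^ j) k := by
      funext k
      rw [hb k, pow_succ']
      rfl
    rw [hc', hb', neg_eq_iff_eq_neg, ← sub_eq_zero, sub_neg_eq_add]
    apply LinearMap.ext
    intro p
    simp only [LinearMap.add_apply, pr, LinearMap.coe_mk, AddHom.coe_mk, Pi.zero_apply, mul_zero,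
      Finset.sum_const_zero, zero_add, smul_zero, sub_zero, ← Finset.sum_add_distrib, ← mul_add,
      sub_add_sub_cancel, sub_self, LinearMap.zero_apply]
  · rintro ⟨ψ, hψ⟩
    obtain ⟨C, B, rfl⟩ := exists_pr ψ
    rw [pair3] at hψ
    obtain ⟨k1, k2⟩ := pr_inj hψ
    obtain ⟨m', hm'⟩ := h2 (ZG G) (Lf ℤ s) (Tl t) r1 r2 (MonoidAlgebra.of ℤ G t ^ 0) C B
      (fun j => congrFun k1 j) (fun k => congrFun k2 k)
    rw [pow_zero] at hm'
    exact h4 G t hG.inf m' hm'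

end Pool.Agent.W509.DU.FD
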