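import Pool.Agent.W326.DU.Stm

set_option autoImplicit false

namespace Pool.Agent.W509.DU

open Pool.Agent.W326.DU

variable {G : Type} [Group G]

/-- the linear map with coordinates `E`, `F` -/
noncomputable def pr {ι κ : Type} [Fintype ι] [Fintype κ] (E : ι → ZG G) (F : κ → ZG G) :
    ((ι → ZG G) × (κ → ZG G)) →ₗ[ZG G] ZG G where
  toFun p := ∑ i, p.1 i * E i + ∑ k, p.2 k * F k
  map_add' p q := by
    simp only [Prod.fst_add, Prod.snd_add, Pi.add_apply, add_mul, Finset.sum_add_distrib]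
    abel
  map_smul' a p := by
    simp only [Prod.smul_fst, Prod.smul_snd, Pi.smul_apply, smul_eq_mul, mul_assoc,
      RingHom.id_apply, mul_add, Finset.mul_sum]

theorem pr_single1 {ι κ : Type} [Fintype ι] [Fintype κ] [DecidableEq ι] (E : ι → ZG G)
    (F : κ → ZG G) (i : ι) : pr E F (Pi.single i 1, 0) = E i := by
  simp [pr, Pi.single_apply]

theorem pr_single2 {ι κ : Type} [Fintype ι] [Fintype κ] [DecidableEq κ] (E : ι → ZG G)
    (F : κ → ZG G) (k : κ) : pr E F (0, Pi.single k 1) = F k := by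
  simp [pr, Pi.single_apply]

theorem ext2 {ι κ : Type} [Fintype ι] [Fintype κ] [DecidableEq ι] [DecidableEq κ]
    (φ ψ : ((ι → ZG G) × (κ → ZG G)) →ₗ[ZG G] ZG G)
    (h1 : ∀ i, φ (Pi.single i 1, 0) = ψ (Pi.single i 1, 0))
    (h2 : ∀ k, φ (0, Pi.single k 1) = ψ (0, Pi.single k 1)) : φ = ψ := by
  apply LinearMap.prod_ext
  · apply LinearMap.pi_ext'
    intro i
    apply LinearMap.ext_ring
    exact h1 i
  · apply LinearMap.pi_ext'
    intro i
    apply LinearMap.ext_ring
    exact h2 i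

theorem exists_pr {ι κ : Type} [Fintype ι] [Fintype κ] [DecidableEq ι] [DecidableEq κ]
    (φ : ((ι → ZG G) × (κ → ZG G)) →ₗ[ZG G] ZG G) : ∃ E F, φ = pr E F :=
  ⟨fun i => φ (Pi.single i 1, 0), fun k => φ (0, Pi.single k 1), ext2 _ _
    (fun i => by rw [pr_single1]) (fun k => by rw [pr_single2])⟩

theorem pr_inj {ι κ : Type} [Fintype ι] [Fintype κ] [DecidableEq ι] [DecidableEq κ]
    {E E' : ι → ZG G} {F F' : κ → ZG G} (h : pr E F = pr E' F') : E = E' ∧ F = F' :=
  ⟨funext fun i => by rw [← pr_single1 E F, h, pr_single1],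
   funext fun k => by rw [← pr_single2 E F, h, pr_single2]⟩

theorem pr_smul {ι κ : Type} [Fintype ι] [Fintype κ] (E : ι → ZG G) (F : κ → ZG G) (n : ℕ) :
    n • pr E F = pr (fun i => n • E i) (fun k => n • F k) := by
  apply LinearMap.ext
  intro p
  simp only [LinearMap.smul_apply, pr, LinearMap.coe_mk, AddHom.coe_mk, mul_smul_comm, smul_add,
    Finset.smul_sum]

theorem pr_sub {ι κ : Type} [Fintype ι] [Fintype κ] (E E' : ι → ZG G) (F F' : κ → ZG G) :
    pr E F - pr E' F' = pr (fun i => E i - E' i) (fun k => F k - F' k) := by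
  apply LinearMap.ext
  intro p
  simp only [LinearMap.sub_apply, pr, LinearMap.coe_mk, AddHom.coe_mk, mul_sub,
    Finset.sum_sub_distrib]
  abel

theorem key3 : ∀ (j : Fin 16) (i : Fin 26) (a : Fin 10), sg3 j a (eL i).1 (eL i).2 =
    (if a = (tL j).1 then sg2 i (tL j).2.1 (tL j).2.2 else 0)
    - (if a = (tL j).2.1 then sg2 i (tL j).1 (tL j).2.2 else 0)
    + (if a = (tL j).2.2 then sg2 i (tL j).1 (tL j).2.1 else 0) := by decide +kernel

theorem alt3_single (j : Fin 16) (a b c : Fin 10) :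
    alt3 (Pi.single j (1 : ZG G)) a b c = sg3 j a b c • (1 : ZG G) := by
  simp [alt3, Pi.single_apply]

theorem alt2_single (i : Fin 26) (a b : Fin 10) :
    alt2 (Pi.single i (1 : ZG G)) a b = sg2 i a b • (1 : ZG G) := by
  simp [alt2, Pi.single_apply]

/-- left multiplication by `t` -/
noncomputable abbrev Tl (t : G) : ZG G →+ ZG G := lm ℤ (MonoidAlgebra.of ℤ G t)

theorem pair3 (s : Fin 10 → G) (t : G) (C : Fin 26 → ZG G) (B : Fin 4 → ZG G) :
    (pr C B) ∘ₗ (d2 s t) = pr (e2 (Lf ℤ s) C) (g2 (Lf ℤ s) (Tl t) C B) := by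
  apply ext2
  · intro j
    rw [pr_single1]
    simp only [LinearMap.comp_apply, d2, LinearMap.coe_mk, AddHom.coe_mk, pr]
    have h1 : ∀ i, c3 (Rf ℤ s) (Pi.single j (1 : ZG G)) i + f2 (Tr t) 0 i
        = ∑ a, sg3 j a (eL i).1 (eL i).2 • (MonoidAlgebra.of ℤ G (s a) - 1) := by
      intro i
      simp [c3, f2, alt3_single, Rf, rm, AddMonoidHom.coe_mulRight]
    have h2 : ∀ k, - k2 (Rf ℤ s) (0 : Fin 4 → ZG G) k = 0 := by
      intro k; simp [k2]
    simp only [h1, h2, zero_mul, Finset.sum_const_zero, add_zero]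
    simp only [key3, add_smul, sub_smul, Finset.sum_add_distrib, Finset.sum_sub_distrib,
      ite_smul, zero_smul, Finset.sum_ite_eq', Finset.mem_univ, if_true]
    simp only [e2, alt2, Lf, lm, AddMonoidHom.coe_mulLeft, map_sum, map_zsmul, add_mul, sub_mul,
      smul_mul_assoc, Finset.sum_add_distrib, Finset.sum_sub_distrib]
  · intro k
    rw [pr_single2]
    simp only [LinearMap.comp_apply, d2, LinearMap.coe_mk, AddHom.coe_mk, pr]
    have h1 : ∀ i, c3 (Rf ℤ s) (0 : Fin 16 → ZG G) i + f2 (Tr t) (Pi.single k 1) i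
        = sg2 i (mm k) (mm (k + 1)) • MonoidAlgebra.of ℤ G t
          - sg2 i (pp k) (pp (k + 1)) • (1 : ZG G) := by
      intro i
      have e0 : c3 (Rf ℤ s) (0 : Fin 16 → ZG G) i = 0 := by simp [c3, alt3]
      rw [e0, zero_add, f2, Finset.sum_eq_single k]
      · rw [Pi.single_eq_same]; simp only [Tr, rm, AddMonoidHom.coe_mulRight, one_mul]
      · intro b _ hb
        rw [Pi.single_eq_of_ne hb]
        simp
      · simp
    have h2 : ∑ k', - k2 (Rf ℤ s) (Pi.single k (1 : ZG G)) k' * B k' =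
        - (Lf ℤ s (pp k) (B (k + 1)) - Lf ℤ s (pp (k + 1)) (B k)) := by
      have h3 : ∑ k' : Fin 4, (Rf ℤ s (pp (k' - 1)) ((Pi.single k (1 : ZG G) : Fin 4 → ZG G)
          (k' - 1))) * B k' = Lf ℤ s (pp k) (B (k + 1)) := by
        rw [← Equiv.sum_comp (Equiv.addRight (1 : Fin 4))]
        simp only [Equiv.coe_addRight, add_sub_cancel_right]
        rw [Finset.sum_eq_single k]
        · rw [Pi.single_eq_same]
          simp only [Rf, Lf, rm, lm, AddMonoidHom.coe_mulRight, AddMonoidHom.coe_mulLeft, one_mul]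
        · intro b _ hb
          rw [Pi.single_eq_of_ne hb, map_zero, zero_mul]
        · simp
      have h4 : ∑ k' : Fin 4, (Rf ℤ s (pp (k' + 1)) ((Pi.single k (1 : ZG G) : Fin 4 → ZG G) k'))
          * B k' = Lf ℤ s (pp (k + 1)) (B k) := by
        rw [Finset.sum_eq_single k]
        · rw [Pi.single_eq_same]
          simp only [Rf, Lf, rm, lm, AddMonoidHom.coe_mulRight, AddMonoidHom.coe_mulLeft, one_mul]
        · intro b _ hb
          rw [Pi.single_eq_of_ne hb, map_zero, zero_mul]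
        · simp
      simp only [k2, neg_mul, sub_mul, Finset.sum_neg_distrib, Finset.sum_sub_distrib, h3, h4]
    simp only [h1]
    rw [h2]
    simp only [g2, alt2, Tl, lm, AddMonoidHom.coe_mulLeft, Finset.mul_sum, sub_mul,
      smul_mul_assoc, one_mul, Finset.sum_sub_distrib, mul_smul_comm]
    abel

theorem key2 : ∀ (i : Fin 26) (a b : Fin 10), sg2 i a b =
    (if a = (eL i).1 ∧ b = (eL i).2 then 1 else 0)
    - (if a = (eL i).2 ∧ b = (eL i).1 then 1 else 0) := by decide +kernel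

/-- the linear map on `P₁` with coordinates `X`, `Y` -/
noncomputable def pr1 (X : Fin 10 → ZG G) (Y : ZG G) :
    ((Fin 10 → ZG G) × ZG G) →ₗ[ZG G] ZG G where
  toFun p := ∑ i, p.1 i * X i + p.2 * Y
  map_add' p q := by
    simp only [Prod.fst_add, Prod.snd_add, Pi.add_apply, add_mul, Finset.sum_add_distrib]
    abel
  map_smul' a p := by
    simp only [Prod.smul_fst, Prod.smul_snd, Pi.smul_apply, smul_eq_mul, mul_assoc,
      RingHom.id_apply, mul_add, Finset.mul_sum]

theorem pair2 (s : Fin 10 → G) (t : G) (X : Fin 10 → ZG G) (Y : ZG G) :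
    (pr1 X Y) ∘ₗ (d1 s t) = pr (e1 (Lf ℤ s) X) (g1 (Lf ℤ s) (Tl t) X Y) := by
  apply ext2
  · intro i
    rw [pr_single1]
    simp only [LinearMap.comp_apply, d1, LinearMap.coe_mk, AddHom.coe_mk, pr1]
    have h1 : ∀ b, c2 (Rf ℤ s) (Pi.single i (1 : ZG G)) b + f1 (Tr t) 0 b
        = ∑ a, sg2 i a b • (MonoidAlgebra.of ℤ G (s a) - 1) := by
      intro i
      simp [c2, f1, alt2_single, Rf, rm, AddMonoidHom.coe_mulRight]
    have h2 : - k1 (Rf ℤ s) (0 : Fin 4 → ZG G) = 0 := by
      simp [k1]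
    simp only [h1, h2, zero_mul, add_zero]
    simp only [key2, sub_smul, Finset.sum_sub_distrib, ite_smul, zero_smul, ite_and, one_smul,
      Finset.sum_ite_eq', Finset.mem_univ, if_true, sub_mul, ite_mul, zero_mul]
    simp only [e1, Lf, lm, AddMonoidHom.coe_mulLeft, sub_mul]
  · intro k
    rw [pr_single2]
    simp only [LinearMap.comp_apply, d1, LinearMap.coe_mk, AddHom.coe_mk, pr1]
    have h1 : ∀ b, c2 (Rf ℤ s) (0 : Fin 26 → ZG G) b + f1 (Tr t) (Pi.single k 1) b
        = (if mm k = b then MonoidAlgebra.of ℤ G t else 0) - (if pp k = b then 1 else 0) := by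
      intro b
      have e0 : c2 (Rf ℤ s) (0 : Fin 26 → ZG G) b = 0 := by simp [c2, alt2]
      rw [e0, zero_add, f1, Finset.sum_eq_single k]
      · rw [Pi.single_eq_same]; simp only [Tr, rm, AddMonoidHom.coe_mulRight, one_mul]
      · intro b _ hb
        rw [Pi.single_eq_of_ne hb]
        simp
      · simp
    have h2 : k1 (Rf ℤ s) (Pi.single k (1 : ZG G)) = MonoidAlgebra.of ℤ G (s (pp k)) - 1 := by
      rw [k1, Finset.sum_eq_single k]
      · rw [Pi.single_eq_same]
        simp only [Rf, rm, AddMonoidHom.coe_mulRight, one_mul]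
      · intro b _ hb
        rw [Pi.single_eq_of_ne hb, map_zero]
      · simp
    simp only [h1, h2]
    simp only [g1, Tl, Lf, lm, AddMonoidHom.coe_mulLeft, sub_mul, neg_mul, ite_mul, zero_mul,
      one_mul, Finset.sum_sub_distrib, Finset.sum_ite_eq, Finset.mem_univ, if_true]
    abel

end Pool.Agent.W509.DU
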